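import Pool.Agent.H68R2.BP.PropsT

set_option autoImplicit false

open scoped ComplexOrder InnerProductSpace ComplexConjugate Topology
open Finset Filter

noncomputable section

namespace H978R3.BP

open H68R2.BP H759R2.Kad H744R2.KZ

section

variable {H : Type} [NormedAddCommGroup H] [InnerProductSpace ℂ H] [CompleteSpace H]

theorem cm_add {N : Set (H →L[ℂ] H)} {a b : H →L[ℂ] H} (ha : a ∈ Cm N) (hb : b ∈ Cm N) :
    a + b ∈ Cm N := by
  intro y hy
  rw [add_mul, mul_add, ha y hy, hb y hy]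

theorem cm_smul {N : Set (H →L[ℂ] H)} (c : ℂ) {a : H →L[ℂ] H} (ha : a ∈ Cm N) :
    c • a ∈ Cm N := by
  intro y hy
  rw [smul_mul_assoc, mul_smul_comm, ha y hy]

theorem cm_one (N : Set (H →L[ℂ] H)) : (1 : H →L[ℂ] H) ∈ Cm N := by
  intro y _
  rw [one_mul, mul_one]

theorem cm_star {M : Set (H →L[ℂ] H)} (hM : ∀ a ∈ M, star a ∈ M) {a : H →L[ℂ] H}
    (ha : a ∈ Cm M) : star a ∈ Cm M := by
  intro b hb
  have h := ha (star b) (hM b hb)
  have h2 := congrArg star h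
  rw [star_mul, star_mul, star_star] at h2
  exact h2.symm

theorem J_norm {K K' : Set H} {R T : H →L[ℂ] H} {J : H → H} (hJ : TOp K K' R T J) (x : H) :
    ‖J x‖ = ‖x‖ := by
  have h := hJ.inner x x
  rw [inner_self_eq_norm_sq_to_K, inner_self_eq_norm_sq_to_K] at h
  have h2 : ‖J x‖ ^ 2 = ‖x‖ ^ 2 := by exact_mod_cast h
  exact (sq_eq_sq₀ (norm_nonneg _) (norm_nonneg _)).1 h2

/-- the operator `J b J` -/
def JJ {K K' : Set H} {R T : H →L[ℂ] H} {J : H → H} (hJ : TOp K K' R T J) (b : H →L[ℂ] H) :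
    H →L[ℂ] H :=
  LinearMap.mkContinuous
    { toFun := fun x => J (b (J x))
      map_add' := by
        intro x y
        rw [hJ.add, map_add, hJ.add]
      map_smul' := by
        intro c x
        simp only [RingHom.id_apply]
        rw [hJ.smul, map_smul, hJ.smul, Complex.conj_conj] } ‖b‖ (by
      intro x
      simp only [LinearMap.coe_mk, AddHom.coe_mk]
      rw [J_norm hJ]
      exact (b.le_opNorm _).trans (by rw [J_norm hJ]))

theorem JJ_apply {K K' : Set H} {R T : H →L[ℂ] H} {J : H → H} (hJ : TOp K K' R T J)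
    (b : H →L[ℂ] H) (x : H) : JJ hJ b x = J (b (J x)) := rfl

end

theorem prove_T_fin (h1 : T_id) (h2 : T_an) : T_fin := by
  intro H _ _ _ M N Ω hCS R T J hJ
  have key : ∀ b, b ∈ Cm N → b ∈ M := fun b hb => by rw [hCS.cM]; exact hb
  have key' : ∀ b, b ∈ M → b ∈ Cm N := fun b hb => by rw [hCS.cM] at hb; exact hb
  -- positive contractions
  have hpos : ∀ a' ∈ N, star a' = a' → (∀ x, 0 ≤ (⟪a' x, x⟫_ℂ).re) →
      (∀ x, (⟪a' x, x⟫_ℂ).re ≤ ‖x‖ ^ 2) → JJ hJ a' ∈ M := by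
    intro a' ha' hsa hp hle
    apply key
    intro y hy
    symm
    apply h2 H R T hJ.rop (JJ hJ a') y
    intro θ hθ
    have hre : 0 < (Complex.exp (Complex.I * θ / 2)).re := by
      have e : Complex.I * (θ : ℂ) / 2 = ((θ / 2 : ℝ) : ℂ) * Complex.I := by push_cast; ring
      rw [e, Complex.exp_ofReal_mul_I_re]
      apply Real.cos_pos_of_mem_Ioo
      rw [abs_lt] at hθ
      constructor <;> linarith [hθ.1, hθ.2]
    obtain ⟨x, hx, hxi⟩ := h1 H M N Ω hCS R T J hJ a' ha' hsa hp hle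
      (Complex.exp (Complex.I * θ / 2)) hre
    refine ⟨x, ?_, ?_⟩
    · exact (key' _ hx y hy).symm
    · have hconj : conj (Complex.exp (Complex.I * θ / 2)) =
          Complex.exp (-(Complex.I * θ / 2)) := by
        rw [← Complex.exp_conj]
        congr 1
        rw [map_div₀, map_mul, Complex.conj_I, Complex.conj_ofReal, Complex.conj_ofNat]
        ring
      ext ξ
      have := hxi ξ
      rw [hconj] at this
      exact this
  -- self-adjoint elements
  have hsa : ∀ a' ∈ N, star a' = a' → JJ hJ a' ∈ M := by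
    intro a' ha' hs
    set C : ℝ := ‖a'‖ + 1 with hC
    have hCpos : 0 < C := by have := norm_nonneg a'; linarith
    set p : H →L[ℂ] H := ((1 / (2 * C) : ℝ) : ℂ) • (a' + ((C : ℝ) : ℂ) • 1) with hp
    have hpN : p ∈ N := by
      rw [hCS.cN] at ha' ⊢
      exact cm_smul _ (cm_add ha' (cm_smul _ (cm_one M)))
    have hin : ∀ x, (⟪p x, x⟫_ℂ).re = 1 / (2 * C) * ((⟪a' x, x⟫_ℂ).re + C * ‖x‖ ^ 2) := by
      intro x
      have e : p x = ((1 / (2 * C) : ℝ) : ℂ) • (a' x + ((C : ℝ) : ℂ) • x) := rfl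
      rw [e, inner_smul_left, inner_add_left, inner_smul_left, Complex.conj_ofReal,
        Complex.conj_ofReal, Complex.re_ofReal_mul, Complex.add_re, Complex.re_ofReal_mul,
        inner_self_eq_norm_sq_to_K]
      norm_cast
    have hbd : ∀ x, |(⟪a' x, x⟫_ℂ).re| ≤ ‖a'‖ * ‖x‖ ^ 2 := by
      intro x
      calc |(⟪a' x, x⟫_ℂ).re| ≤ ‖⟪a' x, x⟫_ℂ‖ := Complex.abs_re_le_norm _
        _ ≤ ‖a' x‖ * ‖x‖ := norm_inner_le_norm _ _
        _ ≤ ‖a'‖ * ‖x‖ * ‖x‖ := mul_le_mul_of_nonneg_right (a'.le_opNorm x) (norm_nonneg x)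
        _ = _ := by ring
    have hp1 := hpos p hpN (by
      rw [hp, star_smul, star_add, star_smul, hs, star_one]
      simp only [RCLike.star_def, Complex.conj_ofReal]) (by
      intro x
      rw [hin]
      have h3 := (abs_le.1 (hbd x)).1
      have h4 : 0 ≤ (⟪a' x, x⟫_ℂ).re + C * ‖x‖ ^ 2 := by
        have := sq_nonneg ‖x‖
        rw [hC]
        nlinarith
      positivity) (by
      intro x
      rw [hin]
      have h3 := (abs_le.1 (hbd x)).2
      have h4 : (⟪a' x, x⟫_ℂ).re + C * ‖x‖ ^ 2 ≤ 2 * C * ‖x‖ ^ 2 := by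
        have := sq_nonneg ‖x‖
        rw [hC]
        nlinarith
      calc 1 / (2 * C) * ((⟪a' x, x⟫_ℂ).re + C * ‖x‖ ^ 2) ≤
            1 / (2 * C) * (2 * C * ‖x‖ ^ 2) := mul_le_mul_of_nonneg_left h4 (by positivity)
        _ = ‖x‖ ^ 2 := by field_simp)
    have e : JJ hJ a' = ((2 * C : ℝ) : ℂ) • JJ hJ p + ((-C : ℝ) : ℂ) • 1 := by
      ext x
      have e1 : a' (J x) = ((2 * C : ℝ) : ℂ) • p (J x) + ((-C : ℝ) : ℂ) • J x := by
        have e2 : p (J x) = ((1 / (2 * C) : ℝ) : ℂ) • (a' (J x) + ((C : ℝ) : ℂ) • J x) := rfl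
        rw [e2, smul_smul, ← Complex.ofReal_mul]
        have e3 : 2 * C * (1 / (2 * C)) = 1 := by field_simp
        rw [e3, Complex.ofReal_one, one_smul, add_assoc, ← add_smul, ← Complex.ofReal_add,
          add_neg_cancel, Complex.ofReal_zero, zero_smul, add_zero]
      change J (a' (J x)) = ((2 * C : ℝ) : ℂ) • J (p (J x)) + ((-C : ℝ) : ℂ) • x
      rw [e1, hJ.add, hJ.smul, hJ.smul, Complex.conj_ofReal, Complex.conj_ofReal, hJ.inv]
    rw [e]
    apply key
    exact cm_add (cm_smul _ (key' _ hp1)) (cm_smul _ (cm_one N))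
  intro a' ha'
  have hst : star a' ∈ N := by
    rw [hCS.cN] at ha' ⊢
    exact cm_star hCS.stM ha'
  have hN : ∀ (c d : ℂ), c • a' + d • star a' ∈ N := by
    intro c d
    rw [hCS.cN] at ha' hst ⊢
    exact cm_add (cm_smul _ ha') (cm_smul _ hst)
  have k1 := hsa (((1 / 2 : ℝ) : ℂ) • a' + ((1 / 2 : ℝ) : ℂ) • star a') (hN _ _) (by
    rw [star_add, star_smul, star_smul, star_star]
    simp only [RCLike.star_def, Complex.conj_ofReal]
    rw [add_comm])
  have k2 := hsa ((-(Complex.I * ((1 / 2 : ℝ) : ℂ))) • a' +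
      (Complex.I * ((1 / 2 : ℝ) : ℂ)) • star a') (hN _ _) (by
    rw [star_add, star_smul, star_smul, star_star]
    simp only [RCLike.star_def, map_neg, map_mul, Complex.conj_ofReal, Complex.conj_I]
    rw [add_comm]
    congr 2
    · ring
    · ring)
  refine ⟨JJ hJ (((1 / 2 : ℝ) : ℂ) • a' + ((1 / 2 : ℝ) : ℂ) • star a') +
    (-Complex.I) • JJ hJ ((-(Complex.I * ((1 / 2 : ℝ) : ℂ))) • a' +
      (Complex.I * ((1 / 2 : ℝ) : ℂ)) • star a'), ?_, ?_⟩
  · apply key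
    exact cm_add (key' _ k1) (cm_smul _ (key' _ k2))
  · intro x
    change J ((((1 / 2 : ℝ) : ℂ) • a' + ((1 / 2 : ℝ) : ℂ) • star a') (J x)) +
      (-Complex.I) • J (((-(Complex.I * ((1 / 2 : ℝ) : ℂ))) • a' +
      (Complex.I * ((1 / 2 : ℝ) : ℂ)) • star a') (J x)) = J (a' (J x))
    have e1 : (-Complex.I) • J (((-(Complex.I * ((1 / 2 : ℝ) : ℂ))) • a' +
      (Complex.I * ((1 / 2 : ℝ) : ℂ)) • star a') (J x)) =
      J (Complex.I • ((-(Complex.I * ((1 / 2 : ℝ) : ℂ))) • a' +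
      (Complex.I * ((1 / 2 : ℝ) : ℂ)) • star a') (J x)) := by
      rw [hJ.smul, Complex.conj_I]
    rw [e1, ← hJ.add]
    congr 1
    simp only [ContinuousLinearMap.add_apply, ContinuousLinearMap.smul_apply, smul_add, smul_smul]
    have e2 : Complex.I * -(Complex.I * ((1 / 2 : ℝ) : ℂ)) = ((1 / 2 : ℝ) : ℂ) := by
      rw [mul_neg, ← mul_assoc, Complex.I_mul_I]; ring
    have e3 : Complex.I * (Complex.I * ((1 / 2 : ℝ) : ℂ)) = -((1 / 2 : ℝ) : ℂ) := by
      rw [← mul_assoc, Complex.I_mul_I]; ring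
    rw [e2, e3]
    have e4 : ((1 / 2 : ℝ) : ℂ) • a' (J x) + ((1 / 2 : ℝ) : ℂ) • (star a') (J x) +
        (((1 / 2 : ℝ) : ℂ) • a' (J x) + -((1 / 2 : ℝ) : ℂ) • (star a') (J x)) =
        (((1 / 2 : ℝ) : ℂ) + ((1 / 2 : ℝ) : ℂ)) • a' (J x) := by
      rw [neg_smul, add_smul]; abel
    rw [e4]
    have e5 : ((1 / 2 : ℝ) : ℂ) + ((1 / 2 : ℝ) : ℂ) = 1 := by push_cast; ring
    rw [e5, one_smul]

end H978R3.BP
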